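import Pool.Agent.H83.LT.Main

/-!
# All but few integral points have equidistributed components
-/

namespace Pool.Agent.H83.LT

open Pool.Agent.H24 Pool.Agent.H24.LP Pool.Agent.H24.LQ Pool.Agent.H24.LX Pool.Agent.H24.LZ Finset

lemma test_tf {N j : ℕ} (hj : j < N) {σ : ℝ} (hσ : σ ^ 2 = 1) :
    Test (pts ((j : ℝ) / (2 * N)) (1 / (2 * N))) (wts σ (1 / (2 * N))) (tf σ N j)
      (1 / (1 / (2 * N))) := by
  have hN : (0 : ℝ) < N := by
    have : 0 < N := by omega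
    exact_mod_cast this
  have hj' : (j : ℝ) + 1 ≤ N := by exact_mod_cast hj
  refine test_T (by positivity) (by positivity) ?_ hσ
  rw [← add_div, div_le_div_iff₀ (by positivity) (by norm_num)]
  linarith

theorem main_equi : ∃ C : ℝ, 1 ≤ C ∧ ∀ (a b : ℤ), QuasiMinimal a b →
    ∀ r : ℕ, Module.rank ℤ (curve a b).Point ≤ r → ∀ δ : ℝ, 0 < δ → δ ≤ 1 →
    (({z | z ∈ integralPoints a b ∧ ¬ Equi a b δ z} : Set (ℤ × ℤ)).ncard : ℝ) ≤
      C ^ (1 + r) * (1 / δ) ^ (4 + 3 * (r : ℝ) / 4) := by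
  classical
  obtain ⟨K, hK0, hequi⟩ := equi_of
  obtain ⟨C₁, hC₁, hcount⟩ := count_gen K hK0
  refine ⟨86 * 20000 * C₁, by linarith, fun a b hq r hr δ hδ hδ1 => ?_⟩
  have hD := hq.ne
  have hL := L_pos a b
  have hr0 : (0 : ℝ) ≤ r := Nat.cast_nonneg r
  have h1δ : 1 ≤ 1 / δ := by rw [le_div_iff₀ hδ]; linarith
  have hδ3 : δ ^ 3 ≤ δ := by nlinarith [mul_pos hδ hδ]
  have hδ30 : 0 < δ ^ 3 := by positivity
  set N : ℕ := ⌈42 / δ⌉₊ with hNdef
  have hN42 : 42 / δ ≤ N := Nat.le_ceil _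
  have hN43' : (N : ℝ) < 42 / δ + 1 := Nat.ceil_lt_add_one (by positivity)
  have hN43 : (N : ℝ) ≤ 43 * (1 / δ) := by
    have e : 42 / δ = 42 * (1 / δ) := by ring
    linarith
  have hNδ : (N : ℝ) * δ ≤ 43 := by
    calc (N : ℝ) * δ ≤ 43 * (1 / δ) * δ := mul_le_mul_of_nonneg_right hN43 hδ.le
      _ = 43 := by field_simp
  have hNpos : (0 : ℝ) < N := lt_of_lt_of_le (by positivity) hN42
  have hN : 0 < N := by exact_mod_cast hNpos
  set β : ℝ := δ ^ 3 / 20000 with hβ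
  have hβ0 : 0 < β := by positivity
  have hβδ : β ≤ δ / 100 := by
    rw [hβ]
    linarith
  have hβ1 : β ≤ 1 := by linarith
  obtain ⟨hfin, -⟩ := (Classical.choose_spec LR.main_T).2 a b hq r hr ∅
  set B : ℝ := C₁ ^ (1 + r) * (1 / β) ^ (1 + (r : ℝ) / 4) with hB
  have hB0 : 0 ≤ B := by positivity
  have hgen : ∀ σ : ℝ, σ ^ 2 = 1 → ∀ j < N, ∀ Y : Set (ℤ × ℤ), Y ⊆ integralPoints a b →
      (K ≤ β * L a b → Rst a b ≤ β * L a b / 4 → ∀ z ∈ Y,
        δ / 4 * L a b ≤ Av hq.ne (tf σ N j) z) → (Y.ncard : ℝ) ≤ B := by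
    intro σ hσ j hj Y hY hYA
    refine hcount a b hq r hr β hβ0 hβ1 4 _ _ _ _ (δ / 4) (test_tf hj hσ) (by positivity) ?_
      Y hY hYA
    rw [one_div_one_div, hβ]
    have h1 : (N : ℝ) * δ * δ ^ 2 ≤ 43 * δ ^ 2 := mul_le_mul_of_nonneg_right hNδ (by positivity)
    nlinarith
  set X : Set (ℤ × ℤ) := {z | z ∈ integralPoints a b ∧ ¬ Equi a b δ z} with hX
  have hXI : X ⊆ integralPoints a b := fun z hz => hz.1
  have hXB : (X.ncard : ℝ) ≤ 2 * N * B := by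
    by_cases h : K ≤ β * L a b ∧ Rst a b ≤ β * L a b / 4
    · set Y : ℝ → ℕ → Set (ℤ × ℤ) := fun σ j =>
        {z | z ∈ integralPoints a b ∧ δ / 4 * L a b < Av hq.ne (tf σ N j) z} with hY
      have hYf : ∀ σ j, (Y σ j).Finite := fun σ j => hfin.subset fun z hz => hz.1
      have hsub : X ⊆ ⋃ j ∈ Finset.range N, (Y 1 j ∪ Y (-1) j) := by
        intro z hz
        by_contra hcon
        apply hz.2
        refine hequi a b hq δ hδ hδ1 N hN hN42 β hβ0 hβδ h.1 h.2 z hz.1 ?_ ?_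
        · intro j hj
          by_contra h3
          apply hcon
          simp only [Set.mem_iUnion]
          exact ⟨j, Finset.mem_range.mpr hj, Or.inl ⟨hz.1, not_le.mp h3⟩⟩
        · intro j hj
          by_contra h3
          apply hcon
          simp only [Set.mem_iUnion]
          exact ⟨j, Finset.mem_range.mpr hj, Or.inr ⟨hz.1, not_le.mp h3⟩⟩
      have hUf : (⋃ j ∈ Finset.range N, (Y 1 j ∪ Y (-1) j)).Finite :=
        hfin.subset (by
          intro z hz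
          simp only [Set.mem_iUnion] at hz
          obtain ⟨j, -, hz | hz⟩ := hz
          · exact hz.1
          · exact hz.1)
      have h1 := Set.ncard_le_ncard hsub hUf
      have h2 := Finset.set_ncard_biUnion_le (Finset.range N) fun j => Y 1 j ∪ Y (-1) j
      have h3 : ∀ j ∈ Finset.range N, (((Y 1 j ∪ Y (-1) j).ncard : ℕ) : ℝ) ≤ 2 * B := by
        intro j hj
        have hj' := Finset.mem_range.mp hj
        have h4 := Set.ncard_union_le (Y 1 j) (Y (-1) j)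
        have h5 := hgen 1 (by norm_num) j hj' (Y 1 j) (fun z hz => hz.1)
          (fun _ _ z hz => hz.2.le)
        have h6 := hgen (-1) (by norm_num) j hj' (Y (-1) j) (fun z hz => hz.1)
          (fun _ _ z hz => hz.2.le)
        have h7 : (((Y 1 j ∪ Y (-1) j).ncard : ℕ) : ℝ) ≤ (Y 1 j).ncard + (Y (-1) j).ncard := by
          exact_mod_cast h4
        linarith
      have h4 := Finset.sum_le_card_nsmul _ _ _ h3
      rw [Finset.card_range, nsmul_eq_mul] at h4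
      have h5 : (X.ncard : ℝ) ≤ ∑ j ∈ Finset.range N, (((Y 1 j ∪ Y (-1) j).ncard : ℕ) : ℝ) := by
        exact_mod_cast h1.trans h2
      linarith
    · have h1 := hgen 1 (by norm_num) 0 hN X hXI (fun h2 h3 => absurd ⟨h2, h3⟩ h)
      have h2 : (1 : ℝ) ≤ N := by exact_mod_cast hN
      nlinarith
  refine hXB.trans ?_
  have e1 : (1 / β) = 20000 * (1 / δ) ^ 3 := by
    rw [hβ]
    field_simp
  have e2 : (1 / β) ^ (1 + (r : ℝ) / 4) ≤
      20000 ^ (1 + r) * (1 / δ) ^ (3 + 3 * (r : ℝ) / 4) := by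
    rw [e1, Real.mul_rpow (by norm_num) (by positivity)]
    have e3 := rpow_quarter_le (by norm_num : (1 : ℝ) ≤ 20000) r
    have e4 : ((1 / δ) ^ 3) ^ (1 + (r : ℝ) / 4) = (1 / δ) ^ (3 + 3 * (r : ℝ) / 4) := by
      rw [← Real.rpow_natCast (1 / δ) 3, ← Real.rpow_mul (by positivity)]
      congr 1
      push_cast
      ring
    rw [e4]
    gcongr
  have e5 : (1 / δ) * (1 / δ) ^ (3 + 3 * (r : ℝ) / 4) = (1 / δ) ^ (4 + 3 * (r : ℝ) / 4) := by
    have h1 : (4 + 3 * (r : ℝ) / 4) = 1 + (3 + 3 * (r : ℝ) / 4) := by ring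
    have h2 : (1 / δ) ^ ((1 : ℝ) + (3 + 3 * (r : ℝ) / 4)) =
        (1 / δ) ^ (1 : ℝ) * (1 / δ) ^ (3 + 3 * (r : ℝ) / 4) :=
      Real.rpow_add (by positivity) _ _
    rw [h1, h2, Real.rpow_one]
  have e6 : (86 : ℝ) ≤ 86 ^ (1 + r) := le_self_pow₀ (by norm_num) (by omega)
  have e7 : 0 ≤ (1 / δ) ^ (3 + 3 * (r : ℝ) / 4) := by positivity
  calc 2 * N * B ≤ 2 * (43 * (1 / δ)) *
        (C₁ ^ (1 + r) * (20000 ^ (1 + r) * (1 / δ) ^ (3 + 3 * (r : ℝ) / 4))) := by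
          rw [hB]
          gcongr
    _ = 86 * (20000 ^ (1 + r) * C₁ ^ (1 + r) *
        ((1 / δ) * (1 / δ) ^ (3 + 3 * (r : ℝ) / 4))) := by ring
    _ ≤ 86 ^ (1 + r) * (20000 ^ (1 + r) * C₁ ^ (1 + r) *
        ((1 / δ) * (1 / δ) ^ (3 + 3 * (r : ℝ) / 4))) := by
          gcongr
    _ = (86 * 20000 * C₁) ^ (1 + r) * (1 / δ) ^ (4 + 3 * (r : ℝ) / 4) := by
          rw [e5, mul_pow, mul_pow]
          ring

end Pool.Agent.H83.LT
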