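import Pool.Agent.H83.LT.Sum
import Pool.Agent.H24.LZ.TestB

/-!
# Integral points with small `gcd(y, 3x² + a)`, and those with `y = 0`
-/

namespace Pool.Agent.H83.LT

open Pool.Agent.H24 Pool.Agent.H24.LP Pool.Agent.H24.LQ Pool.Agent.H24.LX Pool.Agent.H24.LZ Finset

/-- `gcd(y, 3x² + a) ≠ 0`. -/
lemma gcd_pos_of {a b : ℤ} (hD : D a b ≠ 0) {z : ℤ × ℤ} (hz : z ∈ integralPoints a b) :
    0 < Int.gcd z.2 (3 * z.1 ^ 2 + a) := by
  rw [Nat.pos_iff_ne_zero]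
  intro h
  rw [Int.gcd_eq_zero_iff] at h
  obtain ⟨h1, h2⟩ := h
  apply hD
  have h3 : z.2 ^ 2 = z.1 ^ 3 + a * z.1 + b := hz
  have ha : a = -(3 * z.1 ^ 2) := by linarith
  have hb : b = 2 * z.1 ^ 3 := by
    rw [h1, ha] at h3
    linear_combination -h3
  unfold D
  rw [hb, ha]
  ring

/-- `∑_{mult} ν_p τ_p ≤ log gcd(y, 3x² + a)`. -/
lemma sum_tau_le_log {a b : ℤ} (hD : D a b ≠ 0) {z : ℤ × ℤ} (hz : z ∈ integralPoints a b) :
    ∑ p ∈ mult a b, nup a b p * tau p (LR.toPt hD z) ≤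
      Real.log (Int.gcd z.2 (3 * z.1 ^ 2 + a) : ℝ) := by
  classical
  set G : ℕ := Int.gcd z.2 (3 * z.1 ^ 2 + a) with hG
  have e1 : ∑ p ∈ mult a b, nup a b p * tau p (LR.toPt hD z) =
      ∑ p ∈ mult a b, (G.factorization p : ℝ) * Real.log p :=
    Finset.sum_congr rfl fun p hp => nup_tau hD hp hz
  rw [e1, Real.log_nat_eq_sum_factorization]
  unfold Finsupp.sum
  rw [← Finset.sum_filter_ne_zero]
  refine Finset.sum_le_sum_of_subset_of_nonneg ?_ fun p _ _ =>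
    mul_nonneg (Nat.cast_nonneg _) (Real.log_natCast_nonneg p)
  intro p hp
  obtain ⟨-, h2⟩ := Finset.mem_filter.mp hp
  rw [Finsupp.mem_support_iff]
  intro h
  apply h2
  rw [h, Nat.cast_zero, zero_mul]

/-- Integral points with `gcd(y, 3x² + a) ≤ H^(3/2 - δ)`. -/
theorem main_G : ∃ C : ℝ, 1 ≤ C ∧ ∀ (a b : ℤ), QuasiMinimal a b →
    ∀ r : ℕ, Module.rank ℤ (curve a b).Point ≤ r → ∀ δ : ℝ, 0 < δ → δ ≤ 1 →
    (({z | z ∈ integralPoints a b ∧
      Real.log (Int.gcd z.2 (3 * z.1 ^ 2 + a) : ℝ) ≤ (3 / 2 - δ) * L a b} :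
      Set (ℤ × ℤ)).ncard : ℝ) ≤ C ^ (1 + r) * (1 / δ) ^ (2 + (r : ℝ) / 2) := by
  obtain ⟨C₀, hC₀, hW⟩ := sum_mult_ge
  obtain ⟨C₁, hC₁, hcount⟩ := count_gen C₀ hC₀
  refine ⟨28 * C₁, by linarith, fun a b hq r hr δ hδ hδ1 => ?_⟩
  have hL := L_pos a b
  have hr0 : (0 : ℝ) ≤ r := Nat.cast_nonneg r
  have hδ2 : δ ^ 2 ≤ δ := by nlinarith
  have hδ20 : 0 < δ ^ 2 := by positivity
  have h := hcount a b hq r hr (δ ^ 2 / 28) (by positivity) (by nlinarith) 3 ![0, 1 / 2, 0]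
    ![1, -1, 0] (fun τ => 1 / 4 - τ) (1 / 2) (δ / 2) test_B (by positivity)
    (le_of_eq (by ring)) {z | z ∈ integralPoints a b ∧
      Real.log (Int.gcd z.2 (3 * z.1 ^ 2 + a) : ℝ) ≤ (3 / 2 - δ) * L a b} (fun z hz => hz.1)
    (fun hK hR z hz => by
      have h1 := hW a b hq
      have h2 := sum_tau_le_log hq.ne hz.1
      have h3 : Av hq.ne (fun τ => 1 / 4 - τ) z = (∑ p ∈ mult a b, nup a b p) / 4 -
          ∑ p ∈ mult a b, nup a b p * tau p (LR.toPt hq.ne z) := by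
        unfold Av
        rw [Finset.sum_div, ← Finset.sum_sub_distrib]
        exact Finset.sum_congr rfl fun p _ => by ring
      rw [h3]
      have h4 := hz.2
      have h5 : δ ^ 2 / 28 * L a b ≤ δ / 28 * L a b := by gcongr
      linarith)
  refine h.trans ?_
  have e1 : (1 / (δ ^ 2 / 28)) = 28 * (1 / δ) ^ 2 := by field_simp
  have e2 : (1 / (δ ^ 2 / 28)) ^ (1 + (r : ℝ) / 4) ≤
      28 ^ (1 + r) * (1 / δ) ^ (2 + (r : ℝ) / 2) := by
    rw [e1, Real.mul_rpow (by norm_num) (by positivity)]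
    have e3 := rpow_quarter_le (by norm_num : (1 : ℝ) ≤ 28) r
    have e4 : ((1 / δ) ^ 2) ^ (1 + (r : ℝ) / 4) = (1 / δ) ^ (2 + (r : ℝ) / 2) := by
      rw [← Real.rpow_natCast (1 / δ) 2, ← Real.rpow_mul (by positivity)]
      congr 1
      push_cast
      ring
    rw [e4]
    gcongr
  calc C₁ ^ (1 + r) * (1 / (δ ^ 2 / 28)) ^ (1 + (r : ℝ) / 4)
      ≤ C₁ ^ (1 + r) * (28 ^ (1 + r) * (1 / δ) ^ (2 + (r : ℝ) / 2)) := by gcongr
    _ = (28 * C₁) ^ (1 + r) * (1 / δ) ^ (2 + (r : ℝ) / 2) := by rw [mul_pow]; ring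

/-- At most three integral points have `y = 0`. -/
theorem card_zero (a b : ℤ) :
    ({z | z ∈ integralPoints a b ∧ z.2 = 0} : Set (ℤ × ℤ)).ncard ≤ 3 := by
  classical
  set P : Polynomial ℤ := Polynomial.X ^ 3 + Polynomial.C a * Polynomial.X + Polynomial.C b
    with hP
  have hdeg : P.natDegree = 3 := by
    rw [hP]
    compute_degree!
  have hP0 : P ≠ 0 := by
    intro h
    rw [h, Polynomial.natDegree_zero] at hdeg
    exact absurd hdeg (by norm_num)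
  have hsub : ({z | z ∈ integralPoints a b ∧ z.2 = 0} : Set (ℤ × ℤ)) ⊆
      ((P.roots.toFinset.image fun x : ℤ => (x, (0 : ℤ)) : Finset (ℤ × ℤ)) : Set (ℤ × ℤ)) := by
    rintro ⟨x, y⟩ ⟨h1, h2⟩
    have h3 : y ^ 2 = x ^ 3 + a * x + b := h1
    have h2' : y = 0 := h2
    rw [Finset.mem_coe, Finset.mem_image]
    refine ⟨x, ?_, by rw [h2']⟩
    rw [Multiset.mem_toFinset, Polynomial.mem_roots hP0, Polynomial.IsRoot.def]
    rw [h2'] at h3
    simp only [hP, Polynomial.eval_add, Polynomial.eval_pow, Polynomial.eval_X,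
      Polynomial.eval_mul, Polynomial.eval_C]
    linarith
  refine (Set.ncard_le_ncard hsub (Finset.finite_toSet _)).trans ?_
  rw [Set.ncard_coe_finset]
  refine Finset.card_image_le.trans ((Multiset.toFinset_card_le _).trans ?_)
  exact (Polynomial.card_roots' P).trans hdeg.le

end Pool.Agent.H83.LT
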