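import Pool.Agent.H83.LT.Count
import Pool.Agent.H83.LT.Tang

/-!
# The final form
-/

namespace Pool.Agent.H83.LT

open Pool.Agent.H24 Pool.Agent.H24.LP Pool.Agent.H24.LQ Pool.Agent.H24.LX Pool.Agent.H24.LZ Finset

/-- The condition satisfied by all but few integral points. -/
def NearE (a b : ℤ) (δ : ℝ) (z : ℤ × ℤ) : Prop :=
  (|(z.1 : ℝ)| ≤ Real.exp ((1 + δ) * L a b) ∧ z.2 ≠ 0) ∧
  (∃ k : ℕ, 0 < k ∧ (k : ℝ) ≤ Real.exp (δ * L a b) ∧ z.2 ^ 2 ∣ k * D a b) ∧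
  (∃ k : ℕ, 0 < k ∧ (k : ℝ) ≤ Real.exp (δ * L a b) ∧ z.2 ∣ k * (3 * z.1 ^ 2 + a)) ∧
  ∀ s : ℝ, 0 ≤ s → s ≤ 1 → Real.exp ((6 * s - δ) * L a b) ≤ (Ds a b z s : ℝ) ∧
    (Ds a b z s : ℝ) ≤ Real.exp ((6 * s + δ) * L a b)

/-- `y` divides `(|y| / G) m` if `G` divides `m` and `y`. -/
lemma dvd_quot {y m : ℤ} (hy : y ≠ 0) : ∃ k : ℕ, 0 < k ∧ y ∣ k * m ∧
    (k : ℝ) * (Int.gcd y m : ℝ) = |(y : ℝ)| := by
  set G : ℕ := Int.gcd y m with hG
  have hG0 : 0 < G := Int.gcd_pos_of_ne_zero_left _ hy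
  obtain ⟨k, hk⟩ : G ∣ y.natAbs := Int.natCast_dvd.mp (Int.gcd_dvd_left y m)
  obtain ⟨n, hn⟩ : (G : ℤ) ∣ m := Int.gcd_dvd_right _ _
  have hy' : 0 < y.natAbs := Int.natAbs_pos.mpr hy
  have hk0 : 0 < k := by
    rw [hk] at hy'
    exact Nat.pos_of_mul_pos_left hy' |> fun h => by
      rcases Nat.eq_zero_or_pos k with h0 | h0
      · rw [h0, mul_zero] at hy'
        exact absurd hy' (lt_irrefl _)
      · exact h0
  refine ⟨k, hk0, ?_, ?_⟩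
  · have h1 : ((y.natAbs : ℕ) : ℤ) ∣ k * m := by
      rw [hk, hn]
      push_cast
      exact ⟨n, by ring⟩
    exact (Int.natAbs_dvd (a := y)).mp (by simpa using h1)
  · have h1 : ((y.natAbs : ℕ) : ℝ) = |(y : ℝ)| := by
      rw [Nat.cast_natAbs, Int.cast_abs]
    rw [← h1, hk]
    push_cast
    ring

theorem main_E : ∃ C : ℝ, 1 ≤ C ∧ ∀ (a b : ℤ), QuasiMinimal a b →
    ∀ r : ℕ, Module.rank ℤ (curve a b).Point ≤ r →
    (integralPoints a b).Finite ∧ ∀ δ : ℝ, 0 < δ → δ ≤ 1 →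
    (({z | z ∈ integralPoints a b ∧ ¬ NearE a b δ z} : Set (ℤ × ℤ)).ncard : ℝ) ≤
      C ^ (1 + r) * (1 / δ) ^ (4 + 3 * (r : ℝ) / 4) := by
  classical
  obtain ⟨C₁, hC₁, hE⟩ := main_equi
  obtain ⟨C₂, hC₂, hN⟩ := main_N
  obtain ⟨C₃, hC₃, hS⟩ := main_S
  obtain ⟨C₄, hC₄, hZ⟩ := main_ZA
  obtain ⟨C₅, hC₅, hG⟩ := main_G
  set C : ℝ := C₁ + C₂ + 12 * C₃ + 8 * C₄ + 4 * C₅ + 3 with hC
  refine ⟨C, by linarith, fun a b hq r hr => ?_⟩
  have hL := L_pos a b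
  have hr0 : (0 : ℝ) ≤ r := Nat.cast_nonneg r
  obtain ⟨hfin, hT, -⟩ := hZ a b hq r hr
  refine ⟨hfin, fun δ hδ hδ1 => ?_⟩
  have h1δ : 1 ≤ 1 / δ := by rw [le_div_iff₀ hδ]; linarith
  set Y : ℝ := (1 / δ) ^ (4 + 3 * (r : ℝ) / 4) with hY
  have hY1 : 1 ≤ Y := Real.one_le_rpow h1δ (by positivity)
  have hY0 : 0 ≤ Y := by linarith
  have hlog3 : Real.log 3 ≤ 2 := by
    have := Real.log_le_sub_one_of_pos (by norm_num : (0 : ℝ) < 3)
    linarith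
  set X : Set (ℤ × ℤ) := {z | z ∈ integralPoints a b ∧ ¬ NearE a b δ z} with hX
  rcases le_total (δ * L a b) 8 with h | h
  · -- all points
    have hXI : X ⊆ integralPoints a b := fun z hz => hz.1
    have h1 : (X.ncard : ℝ) ≤ ((integralPoints a b).ncard : ℝ) := by
      exact_mod_cast Set.ncard_le_ncard hXI hfin
    have h2 := hT ∅
    rw [Finset.card_empty, add_zero] at h2
    have hG1 : 1 ≤ GA a b ∅ := (one_le_GT a b ∅).trans (GT_le_GA ∅ hq.ne)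
    have h3 : L a b / GA a b ∅ ≤ 8 * (1 / δ) := by
      calc L a b / GA a b ∅ ≤ L a b := div_le_self hL.le hG1
        _ ≤ 8 * (1 / δ) := by
          rw [mul_one_div, le_div_iff₀ hδ, mul_comm]
          exact h
    have h4 : (L a b / GA a b ∅) ^ (1 + (r : ℝ) / 4) ≤ 8 ^ (1 + r) * Y := by
      have h0 : 0 ≤ L a b / GA a b ∅ := by positivity
      calc (L a b / GA a b ∅) ^ (1 + (r : ℝ) / 4) ≤ (8 * (1 / δ)) ^ (1 + (r : ℝ) / 4) :=
            Real.rpow_le_rpow h0 h3 (by positivity)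
        _ = 8 ^ (1 + (r : ℝ) / 4) * (1 / δ) ^ (1 + (r : ℝ) / 4) :=
            Real.mul_rpow (by norm_num) (by positivity)
        _ ≤ 8 ^ (1 + r) * Y := by
            have e1 := rpow_quarter_le (by norm_num : (1 : ℝ) ≤ 8) r
            have e2 : (1 / δ) ^ (1 + (r : ℝ) / 4) ≤ Y :=
              Real.rpow_le_rpow_of_exponent_le h1δ (by linarith)
            gcongr
    calc (X.ncard : ℝ) ≤ C₄ ^ (1 + r) * (8 ^ (1 + r) * Y) :=
          h1.trans (h2.trans (mul_le_mul_of_nonneg_left h4 (by positivity)))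
      _ = (8 * C₄) ^ (1 + r) * Y := by rw [mul_pow]; ring
      _ ≤ C ^ (1 + r) * Y := mono_pow (by linarith) (by linarith) _ hY0
  -- the main case
  set A₁ : Set (ℤ × ℤ) := {z | z ∈ integralPoints a b ∧ ¬ Equi a b δ z} with hA₁
  set A₂ : Set (ℤ × ℤ) := {z | z ∈ integralPoints a b ∧
      ((z.2 ≠ 0 ∧ ∀ k : ℕ, 0 < k → (k : ℝ) ≤ Real.exp (δ * L a b) → ¬ z.2 ^ 2 ∣ k * D a b) ∨
      (∃ d : ℕ, (d : ℤ) ∣ D a b ∧ Nat.Coprime d z.2.natAbs ∧ Real.exp (δ * L a b) ≤ d))} with hA₂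
  set A₃ : Set (ℤ × ℤ) := {z | z ∈ integralPoints a b ∧
      Real.exp (L a b + δ * L a b / 12) ≤ |(z.1 : ℝ)|} with hA₃
  set A₅ : Set (ℤ × ℤ) := {z | z ∈ integralPoints a b ∧
      Real.log (Int.gcd z.2 (3 * z.1 ^ 2 + a) : ℝ) ≤ (3 / 2 - δ / 2) * L a b} with hA₅
  set A₀ : Set (ℤ × ℤ) := {z | z ∈ integralPoints a b ∧ z.2 = 0} with hA₀
  have hδL := mul_pos hδ hL
  have hsub : X ⊆ A₁ ∪ (A₂ ∪ (A₃ ∪ (A₅ ∪ A₀))) := by
    rintro z ⟨hz, hn⟩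
    by_contra hcon
    simp only [Set.mem_union, not_or] at hcon
    obtain ⟨n1, n2, n3, n5, n0⟩ := hcon
    apply hn
    have hy : z.2 ≠ 0 := fun h0 => n0 ⟨hz, h0⟩
    have hx : |(z.1 : ℝ)| < Real.exp (L a b + δ * L a b / 12) := by
      by_contra h0
      exact n3 ⟨hz, not_lt.mp h0⟩
    have hE : Equi a b δ z := by
      by_contra h0
      exact n1 ⟨hz, h0⟩
    have hg : (3 / 2 - δ / 2) * L a b <
        Real.log (Int.gcd z.2 (3 * z.1 ^ 2 + a) : ℝ) := by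
      by_contra h0
      exact n5 ⟨hz, not_lt.mp h0⟩
    refine ⟨⟨?_, hy⟩, ?_, ?_, ?_⟩
    · refine hx.le.trans (Real.exp_le_exp.mpr ?_)
      linarith
    · by_contra h0
      apply n2
      refine ⟨hz, Or.inl ⟨hy, fun k hk0 hk1 hk2 => h0 ⟨k, hk0, hk1, hk2⟩⟩⟩
    · obtain ⟨k, hk0, hk1, hk2⟩ := dvd_quot (m := 3 * z.1 ^ 2 + a) hy
      refine ⟨k, hk0, ?_, hk1⟩
      have hkpos : (0 : ℝ) < k := by exact_mod_cast hk0
      have hGpos : (0 : ℝ) < (Int.gcd z.2 (3 * z.1 ^ 2 + a) : ℝ) := by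
        exact_mod_cast gcd_pos_of hq.ne hz
      rw [← Real.log_le_iff_le_exp hkpos]
      have h2 := y_sq_le (M := L a b + δ * L a b / 12) (by linarith) hz hx.le
      have hypos : 0 < |(z.2 : ℝ)| := abs_pos.mpr (by exact_mod_cast hy)
      have h3 := Real.log_le_log (by positivity) (le_of_eq_of_le (sq_abs (z.2 : ℝ)) h2)
      rw [Real.log_pow, Real.log_mul (by norm_num) (Real.exp_pos _).ne', Real.log_exp,
        ← hk2, Real.log_mul hkpos.ne' hGpos.ne'] at h3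
      push_cast at h3
      linarith
    · intro s hs0 hs1
      obtain ⟨h1, h2⟩ := hE s hs0 hs1
      have hpos : (0 : ℝ) < (Ds a b z s : ℝ) := by
        have : 0 < Ds a b z s :=
          Finset.prod_pos fun p hp =>
            pow_pos (Nat.prime_of_mem_primeFactors (Finset.mem_filter.mp hp).1).pos _
        exact_mod_cast this
      exact ⟨(Real.le_log_iff_exp_le hpos).mp h1, (Real.log_le_iff_le_exp hpos).mp h2⟩
  have hf₁ : A₁.Finite := hfin.subset fun z hz => hz.1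
  have hf₂ : A₂.Finite := hfin.subset fun z hz => hz.1
  have hf₃ : A₃.Finite := hfin.subset fun z hz => hz.1
  have hf₅ : A₅.Finite := hfin.subset fun z hz => hz.1
  have hf₀ : A₀.Finite := hfin.subset fun z hz => hz.1
  have hcard : (X.ncard : ℝ) ≤ A₁.ncard + A₂.ncard + A₃.ncard + A₅.ncard + A₀.ncard := by
    have h1 := Set.ncard_le_ncard hsub (hf₁.union (hf₂.union (hf₃.union (hf₅.union hf₀))))
    have h2 := Set.ncard_union_le A₁ (A₂ ∪ (A₃ ∪ (A₅ ∪ A₀)))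
    have h3 := Set.ncard_union_le A₂ (A₃ ∪ (A₅ ∪ A₀))
    have h4 := Set.ncard_union_le A₃ (A₅ ∪ A₀)
    have h5 := Set.ncard_union_le A₅ A₀
    have h6 : X.ncard ≤ A₁.ncard + A₂.ncard + A₃.ncard + A₅.ncard + A₀.ncard := by omega
    exact_mod_cast h6
  have b1 : (A₁.ncard : ℝ) ≤ C₁ ^ (1 + r) * Y := hE a b hq r hr δ hδ hδ1
  have b2 : (A₂.ncard : ℝ) ≤ C₂ ^ (1 + r) * Y := by
    refine (hN a b hq r hr δ hδ hδ1).trans ?_
    have e2 : (1 / δ) ^ (3 + 3 * (r : ℝ) / 4) ≤ Y :=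
      Real.rpow_le_rpow_of_exponent_le h1δ (by linarith)
    gcongr
  have b3 : (A₃.ncard : ℝ) ≤ (12 * C₃) ^ (1 + r) * Y := by
    have h1 := (hS a b hq r hr).1 (δ * L a b / 12) (by positivity)
    refine h1.trans ?_
    have h2 := quarter_beta (a := a) (b := b) r hδ hδ1 (by norm_num : (1 : ℝ) ≤ 12)
    have e2 : (1 / δ) ^ (1 + (r : ℝ) / 4) ≤ Y :=
      Real.rpow_le_rpow_of_exponent_le h1δ (by linarith)
    calc C₃ ^ (1 + r) * (max 1 (L a b / (δ * L a b / 12))) ^ (1 + (r : ℝ) / 4)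
        ≤ C₃ ^ (1 + r) * (12 ^ (1 + r) * (1 / δ) ^ (1 + (r : ℝ) / 4)) := by gcongr
      _ ≤ C₃ ^ (1 + r) * (12 ^ (1 + r) * Y) := by gcongr
      _ = (12 * C₃) ^ (1 + r) * Y := by rw [mul_pow]; ring
  have b5 : (A₅.ncard : ℝ) ≤ (4 * C₅) ^ (1 + r) * Y := by
    have h1 := hG a b hq r hr (δ / 2) (by positivity) (by linarith)
    refine h1.trans ?_
    have e0 : 1 / (δ / 2) = 2 * (1 / δ) := by field_simp
    have e1 : (2 : ℝ) ^ (2 + (r : ℝ) / 2) ≤ 4 ^ (1 + r) := by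
      have h5 : (4 : ℝ) ^ (1 + r) = 2 ^ ((2 * (1 + r) : ℕ) : ℝ) := by
        rw [Real.rpow_natCast, pow_mul]
        norm_num
      rw [h5]
      refine Real.rpow_le_rpow_of_exponent_le (by norm_num) ?_
      push_cast
      linarith
    have e2 : (1 / δ) ^ (2 + (r : ℝ) / 2) ≤ Y :=
      Real.rpow_le_rpow_of_exponent_le h1δ (by linarith)
    calc C₅ ^ (1 + r) * (1 / (δ / 2)) ^ (2 + (r : ℝ) / 2)
        = C₅ ^ (1 + r) * (2 ^ (2 + (r : ℝ) / 2) * (1 / δ) ^ (2 + (r : ℝ) / 2)) := by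
          rw [e0, Real.mul_rpow (by norm_num) (by positivity)]
      _ ≤ C₅ ^ (1 + r) * (4 ^ (1 + r) * Y) := by gcongr
      _ = (4 * C₅) ^ (1 + r) * Y := by rw [mul_pow]; ring
  have b0 : (A₀.ncard : ℝ) ≤ 3 ^ (1 + r) * Y := by
    have h1 : (A₀.ncard : ℝ) ≤ 3 := by exact_mod_cast card_zero a b
    have h2 : (3 : ℝ) ≤ 3 ^ (1 + r) := le_self_pow₀ (by norm_num) (by omega)
    nlinarith
  have h7 := LW.pow_sum3 (x := C₁) (y := C₂) (z := 12 * C₃) (by linarith) (by linarith)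
    (by linarith) r
  have h8 := LW.pow_sum3 (x := C₁ + C₂ + 12 * C₃) (y := 4 * C₅) (z := 3) (by linarith)
    (by linarith) (by norm_num) r
  calc (X.ncard : ℝ) ≤ (((C₁ ^ (1 + r) + C₂ ^ (1 + r) + (12 * C₃) ^ (1 + r)) +
        (4 * C₅) ^ (1 + r)) + 3 ^ (1 + r)) * Y := by
        rw [add_mul, add_mul, add_mul, add_mul]
        linarith
    _ ≤ (C₁ + C₂ + 12 * C₃ + 4 * C₅ + 3) ^ (1 + r) * Y := by
        refine mul_le_mul_of_nonneg_right ?_ hY0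
        linarith
    _ ≤ C ^ (1 + r) * Y := mono_pow (by linarith) (by linarith) _ hY0

end Pool.Agent.H83.LT
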