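import Pool.Agent.H83.LT.Test

/-!
# From the trapezoids to all intervals
-/

namespace Pool.Agent.H83.LT

open Finset

/-- If the averages of the trapezoids on the grid of step `1/(2N)` are within `A` of their means,
the distribution function of `τ` is within `3W/(2N) + A` of the uniform one. -/
theorem grid {ι : Type*} (T : Finset ι) (ν τ : ι → ℝ) (hν : ∀ p ∈ T, 0 ≤ ν p)
    {N : ℕ} (hN : 0 < N) {A : ℝ} (hA : 0 ≤ A)
    (h1 : ∀ j < N, ∑ p ∈ T, ν p * (1 * (trap ((j : ℝ) / (2 * N)) (1 / (2 * N)) (τ p) -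
      (2 * ((j : ℝ) / (2 * N)) + 1 / (2 * N)))) ≤ A)
    (h2 : ∀ j < N, ∑ p ∈ T, ν p * (-1 * (trap ((j : ℝ) / (2 * N)) (1 / (2 * N)) (τ p) -
      (2 * ((j : ℝ) / (2 * N)) + 1 / (2 * N)))) ≤ A)
    {x : ℝ} (hx0 : 0 ≤ x) (hx1 : x ≤ 1 / 2) :
    |∑ p ∈ T.filter (fun p => τ p ≤ x), ν p - 2 * x * ∑ p ∈ T, ν p| ≤
      3 / (2 * N) * ∑ p ∈ T, ν p + A := by
  classical
  have hN0 : (0 : ℝ) < N := by exact_mod_cast hN
  set W : ℝ := ∑ p ∈ T, ν p with hW
  have hW0 : 0 ≤ W := Finset.sum_nonneg hν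
  set ε : ℝ := 1 / (2 * N) with hε
  have hε0 : 0 < ε := by positivity
  have hεN : 2 * (N : ℝ) * ε = 1 := by rw [hε]; field_simp
  have hdiv : ∀ j : ℕ, (j : ℝ) / (2 * N) = j * ε := by
    intro j
    rw [hε]
    ring
  set S : ℝ := ∑ p ∈ T.filter (fun p => τ p ≤ x), ν p with hS
  have hSsum : S = ∑ p ∈ T, if τ p ≤ x then ν p else 0 := by rw [hS, Finset.sum_filter]
  have hSW : S ≤ W :=
    Finset.sum_le_sum_of_subset_of_nonneg (Finset.filter_subset _ _) fun p hp _ => hν p hp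
  have hS0 : 0 ≤ S := Finset.sum_nonneg fun p hp => hν p (Finset.mem_filter.mp hp).1
  have h3 : (3 : ℝ) / (2 * N) = 3 * ε := by rw [hε]; ring
  rw [h3, abs_le]
  have h1' : ∀ j < N, ∑ p ∈ T, ν p * trap ((j : ℝ) * ε) ε (τ p) ≤
      (2 * ((j : ℝ) * ε) + ε) * W + A := by
    intro j hj
    have h := h1 j hj
    rw [hdiv] at h
    have e : ∑ p ∈ T, ν p * (1 * (trap ((j : ℝ) * ε) ε (τ p) - (2 * ((j : ℝ) * ε) + ε))) =
        ∑ p ∈ T, ν p * trap ((j : ℝ) * ε) ε (τ p) - (2 * ((j : ℝ) * ε) + ε) * W := by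
      rw [hW, Finset.mul_sum, ← Finset.sum_sub_distrib]
      exact Finset.sum_congr rfl fun p _ => by ring
    rw [e] at h
    linarith
  have h2' : ∀ j < N, (2 * ((j : ℝ) * ε) + ε) * W - A ≤
      ∑ p ∈ T, ν p * trap ((j : ℝ) * ε) ε (τ p) := by
    intro j hj
    have h := h2 j hj
    rw [hdiv] at h
    have e : ∑ p ∈ T, ν p * (-1 * (trap ((j : ℝ) * ε) ε (τ p) - (2 * ((j : ℝ) * ε) + ε))) =
        (2 * ((j : ℝ) * ε) + ε) * W - ∑ p ∈ T, ν p * trap ((j : ℝ) * ε) ε (τ p) := by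
      rw [hW, Finset.mul_sum, ← Finset.sum_sub_distrib]
      exact Finset.sum_congr rfl fun p _ => by ring
    rw [e] at h
    linarith
  constructor
  · -- lower bound
    set j : ℕ := ⌊x * (2 * N)⌋₊ with hj
    have hx2 : 0 ≤ x * (2 * N) := by positivity
    have j1 : (j : ℝ) ≤ x * (2 * N) := Nat.floor_le hx2
    have j2 : x * (2 * N) < j + 1 := Nat.lt_floor_add_one _
    have j1' : (j : ℝ) * ε ≤ x := by
      calc (j : ℝ) * ε ≤ x * (2 * N) * ε := mul_le_mul_of_nonneg_right j1 hε0.le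
        _ = x := by rw [mul_assoc, hεN, mul_one]
    have j2' : x < (j : ℝ) * ε + ε := by
      calc x = x * (2 * N) * ε := by rw [mul_assoc, hεN, mul_one]
        _ < (j + 1) * ε := mul_lt_mul_of_pos_right j2 hε0
        _ = (j : ℝ) * ε + ε := by ring
    rcases Nat.eq_zero_or_pos j with h0 | h0
    · rw [h0, Nat.cast_zero, zero_mul, zero_add] at j2'
      have : 2 * x * W ≤ 2 * ε * W := by
        have := mul_le_mul_of_nonneg_right j2'.le hW0
        linarith
      have h5 : 0 ≤ ε * W := by positivity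
      linarith
    · obtain ⟨i, hi⟩ : ∃ i, j = i + 1 := ⟨j - 1, by omega⟩
      have hjN : (j : ℝ) ≤ N := by
        refine j1.trans ?_
        have : x * (2 * N) ≤ 1 / 2 * (2 * N) := mul_le_mul_of_nonneg_right hx1 (by positivity)
        linarith
      have hiN : i < N := by
        have : j ≤ N := by exact_mod_cast hjN
        omega
      have hji : (j : ℝ) = i + 1 := by rw [hi]; push_cast; ring
      rw [hji] at j1' j2'
      have hle : ∑ p ∈ T, ν p * trap ((i : ℝ) * ε) ε (τ p) ≤ S := by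
        rw [hSsum]
        refine Finset.sum_le_sum fun p hp => ?_
        have hnp := hν p hp
        by_cases hpx : τ p ≤ x
        · rw [if_pos hpx]
          exact mul_le_of_le_one_right hnp (trap_le_one hε0)
        · rw [if_neg hpx, trap_zero hε0 (by
            have := not_le.mp hpx
            linarith), mul_zero]
      have h4 := h2' i hiN
      have h6 : (2 * x - 3 * ε) * W ≤ (2 * ((i : ℝ) * ε) + ε) * W := by
        refine mul_le_mul_of_nonneg_right ?_ hW0
        linarith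
      linarith
  · -- upper bound
    set j : ℕ := ⌈x * (2 * N)⌉₊ with hj
    have hx2 : 0 ≤ x * (2 * N) := by positivity
    have j1 : x * (2 * N) ≤ j := Nat.le_ceil _
    have j2 : (j : ℝ) < x * (2 * N) + 1 := Nat.ceil_lt_add_one hx2
    have j1' : x ≤ (j : ℝ) * ε := by
      calc x = x * (2 * N) * ε := by rw [mul_assoc, hεN, mul_one]
        _ ≤ (j : ℝ) * ε := mul_le_mul_of_nonneg_right j1 hε0.le
    have j2' : (j : ℝ) * ε < x + ε := by
      calc (j : ℝ) * ε < (x * (2 * N) + 1) * ε := mul_lt_mul_of_pos_right j2 hε0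
        _ = x + ε := by rw [add_mul, mul_assoc, hεN, mul_one, one_mul]
    rcases lt_or_ge j N with hjN | hjN
    · have hle : S ≤ ∑ p ∈ T, ν p * trap ((j : ℝ) * ε) ε (τ p) := by
        rw [hSsum]
        refine Finset.sum_le_sum fun p hp => ?_
        have hnp := hν p hp
        by_cases hpx : τ p ≤ x
        · rw [if_pos hpx, trap_one hε0 (hpx.trans j1'), mul_one]
        · rw [if_neg hpx]
          exact mul_nonneg hnp (trap_nonneg hε0)
      have h4 := h1' j hjN
      have h6 : (2 * ((j : ℝ) * ε) + ε) * W ≤ (2 * x + 3 * ε) * W := by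
        refine mul_le_mul_of_nonneg_right ?_ hW0
        linarith
      linarith
    · have hjN' : (N : ℝ) ≤ j := by exact_mod_cast hjN
      have h5 : (N : ℝ) * ε ≤ (j : ℝ) * ε := mul_le_mul_of_nonneg_right hjN' hε0.le
      have h6 : 1 * W ≤ (2 * x + 2 * ε) * W := by
        refine mul_le_mul_of_nonneg_right ?_ hW0
        linarith
      have h7 : 0 ≤ ε * W := by positivity
      linarith

end Pool.Agent.H83.LT
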