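import Pool.Agent.H83.LT.Tau

/-!
# The divisors `D_s` and the multiplicative primes with `τ_p ≤ s/2`
-/

namespace Pool.Agent.H83.LT

open Pool.Agent.H24 Pool.Agent.H24.LP Pool.Agent.H24.LQ Pool.Agent.H24.LX Pool.Agent.H24.LZ Finset

/-- `D_s`: the product of `p^{v_p(D)}` over the primes `p` dividing `D` with
`2 v_p(gcd(y, 3x² + a)) ≤ s v_p(D)`. -/
noncomputable def Ds (a b : ℤ) (z : ℤ × ℤ) (s : ℝ) : ℕ :=
  ∏ p ∈ (D a b).natAbs.primeFactors.filter (fun p =>
    2 * ((Int.gcd z.2 (3 * z.1 ^ 2 + a)).factorization p : ℝ) ≤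
      s * (D a b).natAbs.factorization p), p ^ (D a b).natAbs.factorization p

/-- The part of the multiplicative primes with `τ_p ≤ x`. -/
noncomputable def Sm {a b : ℤ} (hD : D a b ≠ 0) (z : ℤ × ℤ) (x : ℝ) : ℝ :=
  ∑ p ∈ (mult a b).filter (fun p => tau p (LR.toPt hD z) ≤ x), nup a b p

lemma nup_val {a b : ℤ} (hD : D a b ≠ 0) {p : ℕ} (hp : p ∈ mult a b) :
    ((D a b).natAbs.factorization p : ℝ) * Real.log p = nup a b p ∧ 0 < nup a b p := by
  obtain ⟨-, -, hs1, -, -, -, -, -, hν⟩ := mult_facts hD hp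
  have h5 := val_eq hD (mem_mult hD hp).1
  rw [hs1, Real.log_one, mul_zero, sub_zero] at h5
  have hnn : nup a b p = nu (fv p) a b := max_eq_right hν.le
  rw [hnn]
  exact ⟨h5, hν⟩

lemma tau_iff {a b : ℤ} (hD : D a b ≠ 0) {p : ℕ} (hp : p ∈ mult a b) {z : ℤ × ℤ}
    (hz : z ∈ integralPoints a b) (s : ℝ) :
    2 * ((Int.gcd z.2 (3 * z.1 ^ 2 + a)).factorization p : ℝ) ≤
      s * (D a b).natAbs.factorization p ↔ tau p (LR.toPt hD z) ≤ s / 2 := by
  obtain ⟨h1, h2⟩ := nup_val hD hp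
  have h3 := nup_tau hD hp hz
  obtain ⟨hpp, h5, -⟩ := mem_mult hD hp
  have hl : 0 < Real.log p := Real.log_pos (by exact_mod_cast hpp.one_lt)
  rw [← mul_le_mul_iff_left₀ hl, mul_assoc, ← h3, mul_assoc, h1,
    show 2 * (nup a b p * tau p (LR.toPt hD z)) = nup a b p * (2 * tau p (LR.toPt hD z)) by ring,
    mul_comm s, mul_le_mul_iff_right₀ h2, le_div_iff₀ (by norm_num : (0 : ℝ) < 2),
    mul_comm (2 : ℝ)]

/-- `log D_s` is the part of the multiplicative primes with `τ_p ≤ s/2`, up to `6 Rst + C`. -/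
theorem log_Ds : ∃ C : ℝ, 0 ≤ C ∧ ∀ (a b : ℤ) (hq : QuasiMinimal a b), ∀ z ∈ integralPoints a b,
    ∀ s : ℝ, 0 < Ds a b z s ∧ Sm hq.ne z (s / 2) ≤ Real.log (Ds a b z s) ∧
      Real.log (Ds a b z s) ≤ Sm hq.ne z (s / 2) + 6 * Rst a b + C := by
  classical
  have l2 : 0 ≤ Real.log 2 := Real.log_nonneg (by norm_num)
  have l3 : 0 ≤ Real.log 3 := Real.log_nonneg (by norm_num)
  refine ⟨6 * (2 * Real.log 2 + 2 * Real.log 3), by linarith, fun a b hq z hz s => ?_⟩
  have hD := hq.ne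
  have hDn : (D a b).natAbs ≠ 0 := Int.natAbs_ne_zero.mpr hD
  have hos := other_sum a b hD
  have hR : Rst a b = ∑ v ∈ places a b \ mult a b, nup a b v
    + ∑ v ∈ (places a b \ mult a b).filter (fun v => 5 ≤ v), 2 * Real.log v := rfl
  set W := places a b \ mult a b with hW
  have hWp : ∀ v ∈ W.erase 0, v.Prime := by
    intro v hv
    obtain ⟨h1, h2⟩ := Finset.mem_erase.mp hv
    exact places_prime' (Finset.mem_sdiff.mp h2).1 h1
  set V : ℕ → ℝ := fun p => ((D a b).natAbs.factorization p : ℝ) * Real.log p with hV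
  have hV0 : ∀ p, 0 ≤ V p := fun p =>
    mul_nonneg (Nat.cast_nonneg _) (Real.log_natCast_nonneg p)
  set F : Finset ℕ := (D a b).natAbs.primeFactors.filter (fun p =>
    2 * ((Int.gcd z.2 (3 * z.1 ^ 2 + a)).factorization p : ℝ) ≤
      s * (D a b).natAbs.factorization p) with hF
  have hpos : 0 < Ds a b z s :=
    Finset.prod_pos fun p hp =>
      pow_pos (Nat.prime_of_mem_primeFactors (Finset.mem_filter.mp hp).1).pos _
  have hlog : Real.log (Ds a b z s) = ∑ p ∈ F, V p := by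
    unfold Ds
    rw [Nat.cast_prod, Real.log_prod]
    · refine Finset.sum_congr rfl fun p _ => ?_
      rw [Nat.cast_pow, Real.log_pow]
    · intro p hp
      have := (Nat.prime_of_mem_primeFactors (Finset.mem_filter.mp hp).1).pos
      positivity
  have hFm : F.filter (fun p => p ∈ mult a b) =
      (mult a b).filter (fun p => tau p (LR.toPt hD z) ≤ s / 2) := by
    ext p
    simp only [hF, Finset.mem_filter]
    constructor
    · rintro ⟨⟨-, h2⟩, h3⟩
      exact ⟨h3, (tau_iff hD h3 hz s).mp h2⟩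
    · rintro ⟨h1, h2⟩
      obtain ⟨hpp, -, -, hpD, -⟩ := mem_mult hD h1
      exact ⟨⟨Nat.mem_primeFactors.mpr ⟨hpp, Int.natCast_dvd.mp hpD, hDn⟩,
        (tau_iff hD h1 hz s).mpr h2⟩, h1⟩
  have hsplit : ∑ p ∈ F, V p = ∑ p ∈ F.filter (fun p => p ∈ mult a b), V p +
      ∑ p ∈ F.filter (fun p => ¬ p ∈ mult a b), V p :=
    (Finset.sum_filter_add_sum_filter_not F _ V).symm
  have hmain : ∑ p ∈ F.filter (fun p => p ∈ mult a b), V p = Sm hD z (s / 2) := by
    rw [hFm]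
    exact Finset.sum_congr rfl fun p hp => (nup_val hD (Finset.mem_filter.mp hp).1).1
  have hrest0 : 0 ≤ ∑ p ∈ F.filter (fun p => ¬ p ∈ mult a b), V p :=
    Finset.sum_nonneg fun p _ => hV0 p
  have hsub : F.filter (fun p => ¬ p ∈ mult a b) ⊆ W.erase 0 := by
    intro p hp
    obtain ⟨h1, h2⟩ := Finset.mem_filter.mp hp
    have h3 := (Finset.mem_filter.mp h1).1
    have hpp := Nat.prime_of_mem_primeFactors h3
    refine Finset.mem_erase.mpr ⟨hpp.ne_zero, Finset.mem_sdiff.mpr ⟨?_, h2⟩⟩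
    refine Finset.mem_insert_of_mem ?_
    rw [Nat.mem_primeFactors]
    refine ⟨hpp, ?_, ?_⟩
    · rw [Int.natAbs_mul]
      exact Dvd.dvd.mul_left (Nat.dvd_of_mem_primeFactors h3) _
    · rw [Int.natAbs_ne_zero]
      exact mul_ne_zero (by norm_num) hD
  have hrest : ∑ p ∈ F.filter (fun p => ¬ p ∈ mult a b), V p ≤ ∑ p ∈ W.erase 0, V p :=
    Finset.sum_le_sum_of_subset_of_nonneg hsub fun p _ _ => hV0 p
  have h5 : ∑ p ∈ W.erase 0, V p ≤ ∑ p ∈ W, nup a b p +
      6 * ∑ p ∈ W.erase 0, 2 * Real.log p := by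
    have h6 : ∑ p ∈ W.erase 0, V p ≤ ∑ p ∈ W.erase 0, (nup a b p + 6 * (2 * Real.log p)) := by
      refine Finset.sum_le_sum fun p hp => ?_
      have h7 := val_eq hD (hWp p hp)
      have h8 := gcd_sv_prime hq (hWp p hp)
      have h9 : nu (fv p) a b ≤ nup a b p := le_max_right _ _
      show ((D a b).natAbs.factorization p : ℝ) * Real.log p ≤ _
      rw [h7]
      linarith
    rw [Finset.sum_add_distrib, ← Finset.mul_sum] at h6
    have h10 : ∑ p ∈ W.erase 0, nup a b p ≤ ∑ p ∈ W, nup a b p :=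
      Finset.sum_le_sum_of_subset_of_nonneg (Finset.erase_subset _ _)
        fun v _ _ => nup_nonneg a b v
    linarith
  have h6 : 0 ≤ ∑ v ∈ W, nup a b v := Finset.sum_nonneg fun v _ => nup_nonneg a b v
  refine ⟨hpos, ?_, ?_⟩
  · rw [hlog, hsplit, hmain]
    linarith
  · rw [hlog, hsplit, hmain]
    linarith

end Pool.Agent.H83.LT
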