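import Pool.Agent.H83.LT.Grid
import Pool.Agent.H83.LT.Sum
import Pool.Agent.H24.LZ.Nagell

/-!
# The components of integral points are equidistributed
-/

namespace Pool.Agent.H83.LT

open Pool.Agent.H24 Pool.Agent.H24.LP Pool.Agent.H24.LQ Pool.Agent.H24.LX Pool.Agent.H24.LZ Finset

/-- The distribution of the components of `z` is within `δ log H` of the uniform one. -/
def Equi (a b : ℤ) (δ : ℝ) (z : ℤ × ℤ) : Prop :=
  ∀ s : ℝ, 0 ≤ s → s ≤ 1 → (6 * s - δ) * L a b ≤ Real.log (Ds a b z s) ∧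
    Real.log (Ds a b z s) ≤ (6 * s + δ) * L a b

/-- The test function of the grid. -/
noncomputable def tf (σ : ℝ) (N j : ℕ) (τ : ℝ) : ℝ :=
  σ * (trap ((j : ℝ) / (2 * N)) (1 / (2 * N)) τ - (2 * ((j : ℝ) / (2 * N)) + 1 / (2 * N)))

lemma Av_tf {a b : ℤ} (hD : D a b ≠ 0) (σ : ℝ) (N j : ℕ) (z : ℤ × ℤ) :
    Av hD (tf σ N j) z = ∑ p ∈ mult a b, nup a b p *
      (σ * (trap ((j : ℝ) / (2 * N)) (1 / (2 * N)) (tau p (LR.toPt hD z)) -
        (2 * ((j : ℝ) / (2 * N)) + 1 / (2 * N)))) := rfl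

/-- If no test function of the grid has a large average, `z` is equidistributed. -/
theorem equi_of : ∃ K : ℝ, 0 ≤ K ∧ ∀ (a b : ℤ) (hq : QuasiMinimal a b), ∀ δ : ℝ, 0 < δ → δ ≤ 1 →
    ∀ N : ℕ, 0 < N → 42 / δ ≤ N → ∀ β : ℝ, 0 < β → β ≤ δ / 100 →
    K ≤ β * L a b → Rst a b ≤ β * L a b / 4 → ∀ z ∈ integralPoints a b,
    (∀ j < N, Av hq.ne (tf 1 N j) z ≤ δ / 4 * L a b) →
    (∀ j < N, Av hq.ne (tf (-1) N j) z ≤ δ / 4 * L a b) → Equi a b δ z := by
  obtain ⟨C₁, hC₁, hlog⟩ := log_Ds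
  obtain ⟨C₂, hC₂, hge⟩ := sum_mult_ge
  refine ⟨C₁ + C₂ + 4, by linarith, fun a b hq δ hδ hδ1 N hN hNδ β hβ hβδ hK hR z hz h1 h2 => ?_⟩
  intro s hs0 hs1
  have hD := hq.ne
  have hL := L_pos a b
  have hR0 : 0 ≤ Rst a b := by
    unfold Rst
    exact add_nonneg (Finset.sum_nonneg fun v _ => nup_nonneg a b v)
      (Finset.sum_nonneg fun v _ => mul_nonneg (by norm_num) (HeightData.log_nonneg' v))
  obtain ⟨-, hl1, hl2⟩ := hlog a b hq z hz s
  set W : ℝ := ∑ p ∈ mult a b, nup a b p with hW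
  have hWle : W ≤ 6 * L a b + 4 := by
    refine le_trans ?_ (sum_nup_le hD)
    exact Finset.sum_le_sum_of_subset_of_nonneg (mult_subset hD) fun v _ _ => nup_nonneg a b v
  have hWge : 6 * L a b - 6 * Rst a b - C₂ ≤ W := hge a b hq
  have hN0 : (0 : ℝ) < N := by exact_mod_cast hN
  have hg := grid (mult a b) (nup a b) (fun p => tau p (LR.toPt hD z))
    (fun p _ => nup_nonneg a b p) hN (A := δ / 4 * L a b) (by positivity)
    (fun j hj => h1 j hj) (fun j hj => h2 j hj) (x := s / 2) (by linarith) (by linarith)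
  have hSm : ∑ p ∈ (mult a b).filter (fun p => tau p (LR.toPt hD z) ≤ s / 2), nup a b p =
      Sm hD z (s / 2) := rfl
  rw [hSm, ← hW] at hg
  have e1 : 2 * (s / 2) * W = s * W := by ring
  rw [e1] at hg
  have hβL : β * L a b ≤ δ / 100 * L a b := mul_le_mul_of_nonneg_right hβδ hL.le
  have hL4 : 4 ≤ L a b := by nlinarith
  have e2 : 3 / (2 * (N : ℝ)) * W ≤ δ / 4 * L a b := by
    have e3 : 3 / (2 * (N : ℝ)) ≤ δ / 28 := by
      rw [div_le_div_iff₀ (by positivity) (by norm_num)]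
      have : 42 ≤ δ * N := by
        rw [div_le_iff₀ hδ] at hNδ
        linarith
      linarith
    have hW0 : 0 ≤ W := Finset.sum_nonneg fun v _ => nup_nonneg a b v
    calc 3 / (2 * (N : ℝ)) * W ≤ δ / 28 * W := mul_le_mul_of_nonneg_right e3 hW0
      _ ≤ δ / 28 * (7 * L a b) := mul_le_mul_of_nonneg_left (by linarith) (by positivity)
      _ = δ / 4 * L a b := by ring
  have hg' := abs_le.mp hg
  have u1 : s * W ≤ s * (6 * L a b) + 4 := by nlinarith
  have u2 : s * (6 * L a b) - 6 * Rst a b - C₂ ≤ s * W := by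
    have h3 : s * (6 * L a b - 6 * Rst a b - C₂) ≤ s * W := mul_le_mul_of_nonneg_left hWge hs0
    nlinarith
  constructor
  · nlinarith
  · nlinarith

end Pool.Agent.H83.LT
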