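import Pool.Agent.H24.LZ.TestC

/-!
# The component of an integral point and `gcd(y, 3x² + a)`

`ν_p τ_p = v_p(gcd(y, 3x² + a)) log p` at the multiplicative primes `p ≥ 5`.
-/

namespace Pool.Agent.H83.LT

open Pool.Agent.H24 Pool.Agent.H24.LP Pool.Agent.H24.LQ Pool.Agent.H24.LX Pool.Agent.H24.LZ Finset

private lemma der_eq {a b : ℤ} (ha : a ≠ 0) (x : ℚ) :
    3 * x ^ 2 + (a : ℚ) = 3 * ((x - en a b) * ((x - en a b) + 2 * en a b)) + An a b := by
  have ha' : (a : ℚ) ≠ 0 := by exact_mod_cast ha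
  unfold en An
  field_simp
  ring

private lemma fge {f : AbsoluteValue ℚ ℝ} (hna : ∀ x y, f (x + y) ≤ max (f x) (f y)) {x y : ℚ}
    (h : f y < f x) : f x ≤ f (x + y) := by
  by_contra hcon
  have h1 := hna (x + y) (-y)
  rw [add_neg_cancel_right, AbsoluteValue.map_neg] at h1
  exact absurd h1 (not_le.mpr (max_lt (not_le.mp hcon) h))

/-- `f G = max (f y) (f m)` for `G = gcd(y, m)`. -/
lemma fv_gcd {p : ℕ} (hp : p.Prime) (y m : ℤ) :
    fv p (((Int.gcd y m : ℕ) : ℤ) : ℚ) = max (fv p y) (fv p m) := by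
  apply le_antisymm
  · rw [Int.gcd_eq_gcd_ab y m]
    push_cast
    refine le_trans (fv_nonarch hp _ _) (max_le_max ?_ ?_)
    · rw [map_mul]
      exact mul_le_of_le_one_right ((fv p).nonneg _) (fv_int_le hp _)
    · rw [map_mul]
      exact mul_le_of_le_one_right ((fv p).nonneg _) (fv_int_le hp _)
  · have key : ∀ n : ℤ, ((Int.gcd y m : ℕ) : ℤ) ∣ n →
        fv p n ≤ fv p (((Int.gcd y m : ℕ) : ℤ) : ℚ) := by
      rintro n ⟨k, rfl⟩
      rw [Int.cast_mul, map_mul]
      exact mul_le_of_le_one_right ((fv p).nonneg _) (fv_int_le hp _)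
    exact max_le (key y (Int.gcd_dvd_left _ _)) (key m (Int.gcd_dvd_right _ _))

/-- `max (f y) (f (3x² + a)) = max (f w) κ`. -/
lemma fv_max {a b : ℤ} (hD : D a b ≠ 0) {p : ℕ} (hp : p ∈ mult a b) {z : ℤ × ℤ}
    (hz : z ∈ integralPoints a b) :
    max (fv p z.2) (fv p ((3 * z.1 ^ 2 + a : ℤ) : ℚ)) =
      max (fv p ((z.1 : ℚ) - en a b)) (kap (fv p) a b) := by
  obtain ⟨hpp, h5, hpl, hpD, hpa⟩ := mem_mult hD hp
  obtain ⟨fa, fb, hs1, hk0, hk1, fe, fA, fB, hν⟩ := mult_facts hD hp
  obtain ⟨hw1, -, -⟩ := mult_M hD hp hz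
  have hna : ∀ x y, fv p (x + y) ≤ max (fv p x) (fv p y) := fv_nonarch hpp
  have ha0 : a ≠ 0 := by
    rintro rfl
    exact hpa (dvd_zero _)
  set w : ℚ := (z.1 : ℚ) - en a b with hw
  set e : ℚ := en a b with he
  set κ : ℝ := kap (fv p) a b with hκ
  have hw0 : 0 ≤ fv p w := (fv p).nonneg _
  have f3 : fv p 3 = 1 := fv_three_eq hpp h5
  have f2 : fv p 2 = 1 := fv_two_eq hpp h5
  have f3e : fv p (3 * e) = 1 := by rw [map_mul, fe, f3, mul_one]
  have f2e : fv p (2 * e) = 1 := by rw [map_mul, fe, f2, mul_one]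
  have hκ2 : κ ^ 2 < κ := by nlinarith
  have hnode : (z.2 : ℚ) ^ 2 = w ^ 2 * (w + 3 * e) + An a b * w - Bn a b := node_eq ha0 hz
  have hder : ((3 * z.1 ^ 2 + a : ℤ) : ℚ) = 3 * (w * (w + 2 * e)) + An a b := by
    push_cast
    exact der_eq (b := b) ha0 (z.1 : ℚ)
  have h3w : fv p (w + 3 * e) ≤ 1 := le_trans (hna _ _) (max_le hw1 f3e.le)
  have h2w : fv p (w + 2 * e) ≤ 1 := le_trans (hna _ _) (max_le hw1 f2e.le)
  have fAw : fv p (An a b * w) = κ ^ 2 * fv p w := by rw [map_mul, fA]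
  have fP : fv p (w ^ 2 * (w + 3 * e)) = fv p w ^ 2 * fv p (w + 3 * e) := by
    rw [map_mul, map_pow]
  have fQ : fv p (3 * (w * (w + 2 * e))) = fv p w * fv p (w + 2 * e) := by
    rw [map_mul, map_mul, f3, one_mul]
  apply le_antisymm
  · -- upper bound
    refine max_le ?_ ?_
    · set m : ℝ := max (fv p w) κ with hm
      have hm0 : 0 < m := lt_max_of_lt_right hk0
      have hwm : fv p w ≤ m := le_max_left _ _
      have hkm : κ ≤ m := le_max_right _ _
      have hκm : κ ^ 2 ≤ m ^ 2 := pow_le_pow_left₀ hk0.le hkm 2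
      have h2 : fv p z.2 ^ 2 ≤ m ^ 2 := by
        rw [← map_pow, hnode]
        have t1 : fv p (w ^ 2 * (w + 3 * e)) ≤ m ^ 2 := by
          rw [fP]
          calc fv p w ^ 2 * fv p (w + 3 * e) ≤ fv p w ^ 2 * 1 :=
                mul_le_mul_of_nonneg_left h3w (by positivity)
            _ ≤ m ^ 2 := by rw [mul_one]; exact pow_le_pow_left₀ hw0 hwm 2
        have t2 : fv p (An a b * w) ≤ m ^ 2 := by
          rw [fAw]
          calc κ ^ 2 * fv p w ≤ κ ^ 2 * 1 := mul_le_mul_of_nonneg_left hw1 (by positivity)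
            _ ≤ m ^ 2 := by rw [mul_one]; exact hκm
        have t3 : fv p (-Bn a b) ≤ m ^ 2 := by
          rw [AbsoluteValue.map_neg, fB]
          exact hκm
        rw [sub_eq_add_neg]
        exact le_trans (hna _ _) (max_le (le_trans (hna _ _) (max_le t1 t2)) t3)
      exact (pow_le_pow_iff_left₀ ((fv p).nonneg _) hm0.le two_ne_zero).mp h2
    · rw [hder]
      refine le_trans (hna _ _) (max_le ?_ ?_)
      · rw [fQ]
        exact (mul_le_of_le_one_right hw0 h2w).trans (le_max_left _ _)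
      · rw [fA]
        exact hκ2.le.trans (le_max_right _ _)
  · -- lower bound
    rcases lt_or_ge (fv p w) 1 with hwlt | hwge
    · have f2w : fv p (w + 2 * e) = 1 := by
        apply le_antisymm h2w
        have := fge hna (x := 2 * e) (y := w) (by rw [f2e]; exact hwlt)
        rw [f2e, add_comm] at this
        exact this
      rw [f2w, mul_one] at fQ
      rcases lt_or_ge (fv p w) κ with h | h
      · -- `|w| < κ`
        rw [max_eq_right h.le]
        refine le_trans ?_ (le_max_left _ _)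
        have h1 : fv p (w ^ 2 * (w + 3 * e) + An a b * w) < κ ^ 2 := by
          refine lt_of_le_of_lt (hna _ _) (max_lt ?_ ?_)
          · rw [fP]
            calc fv p w ^ 2 * fv p (w + 3 * e) ≤ fv p w ^ 2 * 1 :=
                  mul_le_mul_of_nonneg_left h3w (by positivity)
              _ < κ ^ 2 := by rw [mul_one]; exact pow_lt_pow_left₀ h hw0 two_ne_zero
          · rw [fAw]
            calc κ ^ 2 * fv p w < κ ^ 2 * 1 := mul_lt_mul_of_pos_left hwlt (by positivity)
              _ = κ ^ 2 := mul_one _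
        have h2 : fv p (-Bn a b) = κ ^ 2 := by rw [AbsoluteValue.map_neg, fB]
        have h3 := fge hna (x := -Bn a b) (y := w ^ 2 * (w + 3 * e) + An a b * w)
          (by rw [h2]; exact h1)
        rw [h2, add_comm, ← sub_eq_add_neg, ← hnode, map_pow] at h3
        exact (pow_le_pow_iff_left₀ hk0.le ((fv p).nonneg _) two_ne_zero).mp h3
      · -- `κ ≤ |w| < 1`
        rw [max_eq_left h]
        refine le_trans ?_ (le_max_right _ _)
        have h3 := fge hna (x := 3 * (w * (w + 2 * e))) (y := An a b)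
          (by rw [fA, fQ]; linarith)
        rw [← hder, fQ] at h3
        exact h3
    · -- `|w| = 1`
      have hw1' : fv p w = 1 := le_antisymm hw1 hwge
      rw [hw1', max_eq_left hk1.le]
      by_contra hcon
      obtain ⟨c1, c2⟩ := max_lt_iff.mp (not_le.mp hcon)
      rw [hw1', one_pow, one_mul] at fP
      rw [hw1', one_mul] at fQ
      rw [hw1', mul_one] at fAw
      have hκ21 : κ ^ 2 < 1 := by linarith
      have h1 : fv p (w + 3 * e) < 1 := by
        rw [← fP]
        have e1 : w ^ 2 * (w + 3 * e) = (z.2 : ℚ) ^ 2 + (-(An a b * w) + Bn a b) := by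
          rw [hnode]; ring
        rw [e1]
        refine lt_of_le_of_lt (hna _ _) (max_lt ?_ (lt_of_le_of_lt (hna _ _) (max_lt ?_ ?_)))
        · rw [map_pow]
          exact pow_lt_one₀ ((fv p).nonneg _) c1 two_ne_zero
        · rw [AbsoluteValue.map_neg, fAw]
          exact hκ21
        · rw [fB]
          exact hκ21
      have h2 : fv p (w + 2 * e) < 1 := by
        rw [← fQ]
        have e1 : 3 * (w * (w + 2 * e)) = ((3 * z.1 ^ 2 + a : ℤ) : ℚ) + (-An a b) := by
          rw [hder]; ring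
        rw [e1]
        refine lt_of_le_of_lt (hna _ _) (max_lt c2 ?_)
        rw [AbsoluteValue.map_neg, fA]
        exact hκ21
      have h4 : fv p e < 1 := by
        have e1 : e = (w + 3 * e) + (-(w + 2 * e)) := by ring
        rw [e1]
        refine lt_of_le_of_lt (hna _ _) (max_lt h1 ?_)
        rw [AbsoluteValue.map_neg]
        exact h2
      rw [fe] at h4
      exact lt_irrefl _ h4

/-- `ν_p τ_p = v_p(gcd(y, 3x² + a)) log p` at the multiplicative primes. -/
theorem nup_tau {a b : ℤ} (hD : D a b ≠ 0) {p : ℕ} (hp : p ∈ mult a b) {z : ℤ × ℤ}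
    (hz : z ∈ integralPoints a b) :
    nup a b p * tau p (LR.toPt hD z) =
      ((Int.gcd z.2 (3 * z.1 ^ 2 + a)).factorization p : ℝ) * Real.log p := by
  obtain ⟨hpp, h5, hpl, hpD, hpa⟩ := mem_mult hD hp
  obtain ⟨fa, fb, hs1, hk0, hk1, fe, fA, fB, hν⟩ := mult_facts hD hp
  obtain ⟨hw1, hN, hM⟩ := mult_M hD hp hz
  have h1 := fv_max hD hp hz
  have h2 := fv_gcd hpp z.2 (3 * z.1 ^ 2 + a)
  rw [h1] at h2
  set m : ℝ := max (fv p ((z.1 : ℚ) - en a b)) (kap (fv p) a b) with hm
  have hm0 : 0 < m := lt_max_of_lt_right hk0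
  have hG0 : ((Int.gcd z.2 (3 * z.1 ^ 2 + a) : ℕ) : ℤ) ≠ 0 := by
    intro h
    rw [h, Int.cast_zero, map_zero] at h2
    exact hm0.ne h2
  have hT : Tv (fv p) a b (thr p) (repX (LR.toPt hD z)) (repZ (LR.toPt hD z)) =
      - Real.log m := by
    unfold Tv
    rw [thr_mult hp, if_neg (not_le.mpr hν), hN, hM, one_div, Real.log_inv]
  have hnn : nup a b p = nu (fv p) a b := max_eq_right hν.le
  rw [hnn, ← Tv_eq, hT, ← h2, fv_int hpp hG0, Real.log_inv, Real.log_pow, neg_neg,
    Int.natAbs_natCast]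

end Pool.Agent.H83.LT
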