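import Pool.Agent.H24.LZ.CountG

/-!
# Trapezoid test functions

`trap u ε τ` is `1` for `τ ≤ u`, `0` for `τ ≥ u + ε` and linear in between. `trap u ε - (2u + ε)` is
the potential of a measure on the four points `±u`, `±(u + ε)`, of energy `1/ε`; so is its negative.
-/

namespace Pool.Agent.H83.LT

open Pool.Agent.H24 Pool.Agent.H24.LP Pool.Agent.H24.LQ Pool.Agent.H24.LX Pool.Agent.H24.LZ Finset

/-- The trapezoid. -/
noncomputable def trap (u ε τ : ℝ) : ℝ := (ε + |τ - (u + ε)| - |τ - u|) / (2 * ε)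

lemma trap_one {u ε τ : ℝ} (hε : 0 < ε) (h : τ ≤ u) : trap u ε τ = 1 := by
  unfold trap
  rw [abs_of_nonpos (by linarith : τ - (u + ε) ≤ 0), abs_of_nonpos (by linarith : τ - u ≤ 0),
    div_eq_one_iff_eq (by positivity)]
  ring

lemma trap_zero {u ε τ : ℝ} (hε : 0 < ε) (h : u + ε ≤ τ) : trap u ε τ = 0 := by
  unfold trap
  rw [abs_of_nonneg (by linarith : 0 ≤ τ - (u + ε)), abs_of_nonneg (by linarith : 0 ≤ τ - u)]
  have e : ε + (τ - (u + ε)) - (τ - u) = 0 := by ring
  rw [e, zero_div]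

lemma trap_nonneg {u ε τ : ℝ} (hε : 0 < ε) : 0 ≤ trap u ε τ := by
  unfold trap
  refine div_nonneg ?_ (by positivity)
  have h := abs_sub_abs_le_abs_sub (τ - u) (τ - (u + ε))
  have e : τ - u - (τ - (u + ε)) = ε := by ring
  rw [e, abs_of_pos hε] at h
  linarith

lemma trap_le_one {u ε τ : ℝ} (hε : 0 < ε) : trap u ε τ ≤ 1 := by
  unfold trap
  rw [div_le_one (by positivity)]
  have h := abs_sub_abs_le_abs_sub (τ - (u + ε)) (τ - u)
  have e : τ - (u + ε) - (τ - u) = -ε := by ring
  rw [e, abs_neg, abs_of_pos hε] at h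
  linarith

/-- The value of the potential. -/
private lemma trap_pot {u ε t : ℝ} (hε : 0 < ε) (hu : 0 ≤ u) :
    (|t - u| + |t + u|) - (|t - (u + ε)| + |t + (u + ε)|) =
      |(|t| - u)| - |(|t| - (u + ε))| - ε := by
  rcases abs_cases t with ⟨h1, h2⟩ | ⟨h1, h2⟩
  · rw [h1, abs_of_nonneg (by linarith : 0 ≤ t + u),
      abs_of_nonneg (by linarith : 0 ≤ t + (u + ε))]
    ring
  · rw [h1, abs_of_nonpos (by linarith : t - u ≤ 0),
      abs_of_nonpos (by linarith : t - (u + ε) ≤ 0)]
    have e1 : |t + u| = |(-t - u)| := by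
      rw [← abs_neg]; congr 1; ring
    have e2 : |t + (u + ε)| = |(-t - (u + ε))| := by
      rw [← abs_neg]; congr 1; ring
    rw [e1, e2]
    ring

/-- The four points. -/
def pts (u ε : ℝ) : Fin 4 → ℝ := ![u, -u, u + ε, -(u + ε)]

/-- The four weights, with a sign. -/
noncomputable def wts (σ ε : ℝ) : Fin 4 → ℝ :=
  ![σ / (2 * ε), σ / (2 * ε), -(σ / (2 * ε)), -(σ / (2 * ε))]

lemma test_T {u ε σ : ℝ} (hε : 0 < ε) (hu : 0 ≤ u) (hv : u + ε ≤ 1 / 2) (hσ : σ ^ 2 = 1) :
    Test (pts u ε) (wts σ ε) (fun τ => σ * (trap u ε τ - (2 * u + ε))) (1 / ε) := by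
  refine ⟨by positivity, ?_, fun t ht => ?_⟩
  · have bv : ∀ x : ℝ, 0 ≤ x → x ≤ 1 →
        bern ((x : ℝ) : AddCircle (1 : ℝ)) = x ^ 2 - x + 1 / 6 := by
      intro x h0 h1
      rw [bern_val1 (by rwa [abs_of_nonneg h0]), abs_of_nonneg h0]
    have bn : ∀ x : ℝ, 0 ≤ x → x ≤ 1 →
        bern ((-x : ℝ) : AddCircle (1 : ℝ)) = x ^ 2 - x + 1 / 6 := by
      intro x h0 h1
      rw [bern_abs, abs_neg, ← bern_abs, bv x h0 h1]
    have c00 : bern ((0 : ℝ) : AddCircle (1 : ℝ)) = 1 / 6 := by
      rw [bv 0 le_rfl (by norm_num)]; norm_num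
    have e01 : u - -u = 2 * u := by ring
    have e02 : u - (u + ε) = -ε := by ring
    have e03 : u - -(u + ε) = 2 * u + ε := by ring
    have e10 : -u - u = -(2 * u) := by ring
    have e12 : -u - (u + ε) = -(2 * u + ε) := by ring
    have e13 : -u - -(u + ε) = ε := by ring
    have e20 : u + ε - u = ε := by ring
    have e21 : u + ε - -u = 2 * u + ε := by ring
    have e23 : u + ε - -(u + ε) = 2 * (u + ε) := by ring
    have e30 : -(u + ε) - u = -(2 * u + ε) := by ring
    have e31 : -(u + ε) - -u = -ε := by ring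
    have e32 : -(u + ε) - (u + ε) = -(2 * (u + ε)) := by ring
    simp only [pts, wts, Fin.sum_univ_four, Matrix.cons_val_zero, Matrix.cons_val_one,
      Matrix.cons_val, sub_self, e01, e02, e03, e10, e12, e13, e20, e21, e23, e30, e31, e32,
      c00, bv (2 * u) (by linarith) (by linarith), bv ε hε.le (by linarith),
      bv (2 * u + ε) (by linarith) (by linarith), bv (2 * (u + ε)) (by linarith) (by linarith),
      bn (2 * u) (by linarith) (by linarith), bn ε hε.le (by linarith),
      bn (2 * u + ε) (by linarith) (by linarith), bn (2 * (u + ε)) (by linarith) (by linarith)]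
    apply le_of_eq
    field_simp
    rw [hσ]
    ring
  · have h0 := abs_le.mp ht
    have bv : ∀ x : ℝ, -1 ≤ x → x ≤ 1 →
        bern ((x : ℝ) : AddCircle (1 : ℝ)) = x ^ 2 - |x| + 1 / 6 := by
      intro x h0 h1
      exact bern_val1 (abs_le.mpr ⟨h0, h1⟩)
    have e1 : t - -u = t + u := by ring
    have e2 : t - -(u + ε) = t + (u + ε) := by ring
    simp only [pts, wts, Fin.sum_univ_four, Matrix.cons_val_zero, Matrix.cons_val_one,
      Matrix.cons_val, e1, e2, bv (t - u) (by linarith) (by linarith),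
      bv (t + u) (by linarith) (by linarith), bv (t - (u + ε)) (by linarith) (by linarith),
      bv (t + (u + ε)) (by linarith) (by linarith)]
    have h := trap_pot (t := t) hε hu
    apply le_of_eq
    unfold trap
    have k : |(|t| - (u + ε))| - |(|t| - u)| =
        -ε - ((|t - u| + |t + u|) - (|t - (u + ε)| + |t + (u + ε)|)) := by linarith
    have k2 : (ε + |(|t| - (u + ε))| - |(|t| - u)|) / (2 * ε) =
        (|t - (u + ε)| + |t + (u + ε)| - (|t - u| + |t + u|)) / (2 * ε) := by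
      congr 1
      linarith
    rw [k2]
    field_simp
    ring

end Pool.Agent.H83.LT
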